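import Mathlib

namespace Pool.Agent.Results.MP_737f38_pr.AboveOne

open Finset Set

/-- The mass function of a sum of independent Bernoulli variables with parameters `p`. -/
noncomputable def pmf {m : ℕ} (p : Fin m → ℝ) (k : ℕ) : ℝ :=
  ∑ T ∈ (Finset.univ : Finset (Finset (Fin m))).filter (fun T => T.card = k),
    (∏ i ∈ T, p i) * ∏ i ∈ Tᶜ, (1 - p i)

/-- The Renyi entropy of order `q ≠ 1` of the Bernoulli sum with parameters `p`. -/
noncomputable def renyi {m : ℕ} (q : ℝ) (p : Fin m → ℝ) : ℝ :=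
  (1 - q)⁻¹ * Real.log (∑ k ∈ range (m + 1), pmf p k ^ q)

/-- The entropy along the affine path from `p0` to `p1`. -/
noncomputable def phi {m : ℕ} (q : ℝ) (p0 p1 : Fin m → ℝ) (t : ℝ) : ℝ :=
  renyi q fun i => (1 - t) * p0 i + t * p1 i

lemma pmf0 (p : Fin 2 → ℝ) : pmf p 0 = (1 - p 0) * (1 - p 1) := by
  have : (Finset.univ : Finset (Finset (Fin 2))).filter (fun T => T.card = 0) = {∅} := by decide
  rw [pmf, this]
  simp [Fin.prod_univ_two]

lemma pmf1 (p : Fin 2 → ℝ) : pmf p 1 = p 0 * (1 - p 1) + p 1 * (1 - p 0) := by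
  have : (Finset.univ : Finset (Finset (Fin 2))).filter (fun T => T.card = 1) = {{0}, {1}} := by
    decide
  have h0 : ({0} : Finset (Fin 2))ᶜ = {1} := by decide
  have h1 : ({1} : Finset (Fin 2))ᶜ = {0} := by decide
  rw [pmf, this, Finset.sum_pair (by decide), h0, h1]
  simp

lemma pmf2 (p : Fin 2 → ℝ) : pmf p 2 = p 0 * p 1 := by
  have : (Finset.univ : Finset (Finset (Fin 2))).filter (fun T => T.card = 2) = {Finset.univ} := by
    decide
  simp [pmf, this, Fin.prod_univ_two]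

noncomputable def FF (q A B C s : ℝ) : ℝ := (A - s ^ 2) ^ q + (B + 2 * s ^ 2) ^ q + (C - s ^ 2) ^ q
noncomputable def KK (q A B C s : ℝ) : ℝ :=
  -(A - s ^ 2) ^ (q - 1) + 2 * (B + 2 * s ^ 2) ^ (q - 1) - (C - s ^ 2) ^ (q - 1)
noncomputable def psi (q A B C s : ℝ) : ℝ := (1 - q)⁻¹ * Real.log (FF q A B C s)
noncomputable def gg (q A B C s : ℝ) : ℝ := (1 - q)⁻¹ * (2 * q * KK q A B C s / FF q A B C s)

lemma FF_pos {q A B C s : ℝ} (hA : s ^ 2 < A) (hB : 0 < B) (hC : s ^ 2 < C) :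
    0 < FF q A B C s := by
  have h1 : 0 < A - s ^ 2 := by linarith
  have h2 : 0 < C - s ^ 2 := by linarith
  unfold FF
  positivity

lemma psi_deriv {q A B C s : ℝ} (hA : s ^ 2 < A) (hB : 0 < B) (hC : s ^ 2 < C) :
    HasDerivAt (psi q A B C) (s * gg q A B C s) s := by
  have h1 : 0 < A - s ^ 2 := by linarith
  have h2 : 0 < C - s ^ 2 := by linarith
  have h3 : 0 < B + 2 * s ^ 2 := by positivity
  have hs : HasDerivAt (fun s : ℝ => s ^ 2) (2 * s) s := by simpa using hasDerivAt_pow 2 s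
  have d1 := (hs.const_sub A).rpow_const (p := q) (Or.inl h1.ne')
  have d2 := ((hs.const_mul 2).const_add B).rpow_const (p := q) (Or.inl h3.ne')
  have d3 := (hs.const_sub C).rpow_const (p := q) (Or.inl h2.ne')
  have d4 : HasDerivAt (FF q A B C) (s * (2 * q * KK q A B C s)) s := by
    exact ((d1.add d2).add d3).congr_deriv (by unfold KK; ring)
  have d5 := (d4.log (FF_pos hA hB hC).ne').const_mul (1 - q)⁻¹
  exact d5.congr_deriv (by unfold gg; ring)

lemma gg_smooth {q A B C : ℝ} (hA : 0 < A) (hB : 0 < B) (hC : 0 < C) :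
    ContDiffAt ℝ 1 (gg q A B C) 0 := by
  have hs : ContDiffAt ℝ 1 (fun s : ℝ => s ^ 2) 0 := by fun_prop
  have e1 : ∀ r : ℝ, ContDiffAt ℝ 1 (fun s : ℝ => (A - s ^ 2) ^ r) 0 := fun r =>
    (contDiffAt_const.sub hs).rpow_const_of_ne (by simpa using hA.ne')
  have e2 : ∀ r : ℝ, ContDiffAt ℝ 1 (fun s : ℝ => (B + 2 * s ^ 2) ^ r) 0 := fun r =>
    (contDiffAt_const.add (contDiffAt_const.mul hs)).rpow_const_of_ne (by simpa using hB.ne')
  have e3 : ∀ r : ℝ, ContDiffAt ℝ 1 (fun s : ℝ => (C - s ^ 2) ^ r) 0 := fun r =>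
    (contDiffAt_const.sub hs).rpow_const_of_ne (by simpa using hC.ne')
  have hF : ContDiffAt ℝ 1 (FF q A B C) 0 := ((e1 q).add (e2 q)).add (e3 q)
  have hK : ContDiffAt ℝ 1 (KK q A B C) 0 :=
    ((e1 _).neg.add (contDiffAt_const.mul (e2 _))).sub (e3 _)
  exact contDiffAt_const.mul ((contDiffAt_const.mul hK).div hF
    (FF_pos (by simpa using hA) hB (by simpa using hC)).ne')

lemma psi_convex {q A B C : ℝ} (hA : 0 < A) (hB : 0 < B) (hC : 0 < C)
    (hg : 0 < gg q A B C 0) : ∃ δ > 0, δ ^ 2 < C ∧ StrictConvexOn ℝ (Icc 0 δ) (psi q A B C) := by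
  have hh : ContDiffAt ℝ 1 (fun s => s * gg q A B C s) 0 := contDiffAt_id.mul (gg_smooth hA hB hC)
  have hd : deriv (fun s => s * gg q A B C s) 0 = gg q A B C 0 := by
    have := ((hasDerivAt_id' (0 : ℝ)).fun_mul
      ((gg_smooth (q := q) hA hB hC).differentiableAt (by norm_num)).hasDerivAt).deriv
    simpa using this
  have hc : ContinuousAt (deriv fun s => s * gg q A B C s) 0 :=
    (hh.derivWithin (m := 0) (by norm_num)).continuousAt.congr (by simp)
  have h1 : ∀ᶠ s in nhds (0 : ℝ), 0 < deriv (fun s => s * gg q A B C s) s :=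
    hc.eventually (lt_mem_nhds (by rw [hd]; exact hg))
  have hsq : ContinuousAt (fun s : ℝ => s ^ 2) 0 := by fun_prop
  have h2 : ∀ᶠ s in nhds (0 : ℝ), s ^ 2 < A := hsq.eventually (gt_mem_nhds (by simpa using hA))
  have h3 : ∀ᶠ s in nhds (0 : ℝ), s ^ 2 < C := hsq.eventually (gt_mem_nhds (by simpa using hC))
  obtain ⟨ε, hε, H⟩ := Metric.eventually_nhds_iff.1 (h1.and (h2.and h3))
  have Hb : ∀ s ∈ Icc (0 : ℝ) (ε / 2), dist s 0 < ε := by
    intro s hs
    rw [Real.dist_eq, sub_zero, abs_of_nonneg hs.1]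
    linarith [hs.2]
  refine ⟨ε / 2, by linarith, (H (Hb _ ⟨by linarith, le_rfl⟩)).2.2, ?_⟩
  apply strictConvexOn_of_deriv2_pos (convex_Icc _ _)
  · intro s hs
    have := H (Hb s hs)
    exact (psi_deriv this.2.1 hB this.2.2).continuousAt.continuousWithinAt
  · intro s hs
    have hs' := Hb s (interior_subset hs)
    have e : deriv (psi q A B C) =ᶠ[nhds s] fun s => s * gg q A B C s := by
      filter_upwards [Metric.isOpen_ball.mem_nhds (Metric.mem_ball.2 hs')] with x hx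
      have := H (Metric.mem_ball.1 hx)
      exact (psi_deriv this.2.1 hB this.2.2).deriv
    show 0 < deriv (deriv (psi q A B C)) s
    rw [e.deriv_eq]
    exact (H hs').1

theorem result (q : ℝ) (hq : 1 < q) : ∃ (m : ℕ) (p0 p1 : Fin m → ℝ), 1 ≤ m ∧
    (∀ i, p0 i ∈ Icc (0 : ℝ) 1) ∧ (∀ i, p1 i ∈ Icc (0 : ℝ) 1) ∧
    StrictConvexOn ℝ (Icc 0 1) (phi q p0 p1) := by
  have hr : 0 < q - 1 := by linarith
  set x : ℝ := (1 / 4 : ℝ) ^ (q - 1)⁻¹ with hx
  have hx0 : 0 < x := by positivity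
  have hx1 : x < 1 := Real.rpow_lt_one (by norm_num) (by norm_num) (inv_pos.2 hr)
  have hxr : x ^ (q - 1) = 1 / 4 := Real.rpow_inv_rpow (by norm_num) hr.ne'
  set a : ℝ := x / (2 + x) with ha
  have ha0 : 0 < a := by positivity
  have ha1 : a < 1 / 2 := by rw [ha, div_lt_iff₀ (by positivity)]; linarith
  have hA : 0 < (1 - a) ^ 2 := by have : 0 < 1 - a := by linarith
                                  positivity
  have hBx : 2 * a * (1 - a) = x * (1 - a) ^ 2 := by rw [ha]; field_simp; ring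
  have hB : 0 < 2 * a * (1 - a) := by rw [hBx]; positivity
  have hC : 0 < a ^ 2 := by positivity
  have hg : 0 < gg q ((1 - a) ^ 2) (2 * a * (1 - a)) (a ^ 2) 0 := by
    have hK : KK q ((1 - a) ^ 2) (2 * a * (1 - a)) (a ^ 2) 0 < 0 := by
      have h1 : 0 < ((1 - a) ^ 2) ^ (q - 1) := Real.rpow_pos_of_pos hA _
      have h2 : 0 < (a ^ 2) ^ (q - 1) := Real.rpow_pos_of_pos hC _
      simp only [KK, ne_eq, OfNat.ofNat_ne_zero, not_false_eq_true, zero_pow, sub_zero, mul_zero,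
        add_zero]
      rw [hBx, Real.mul_rpow hx0.le hA.le, hxr]
      linarith
    have hF : 0 < FF q ((1 - a) ^ 2) (2 * a * (1 - a)) (a ^ 2) 0 :=
      FF_pos (by simpa using hA) hB (by simpa using hC)
    exact mul_pos_of_neg_of_neg (inv_lt_zero.2 (by linarith))
      (div_neg_of_neg_of_pos (mul_neg_of_pos_of_neg (by linarith) hK) hF)
  obtain ⟨δ, hδ, hδa, hconv⟩ := psi_convex hA hB hC hg
  have hδa' : δ < a := by
    by_contra h
    nlinarith
  refine ⟨2, ![a, a], ![a + δ, a - δ], by norm_num, ?_, ?_, ?_⟩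
  · intro i
    fin_cases i <;> exact ⟨ha0.le, by show a ≤ 1; linarith⟩
  · intro i
    fin_cases i
    · exact ⟨by show 0 ≤ a + δ; linarith, by show a + δ ≤ 1; linarith⟩
    · exact ⟨by show 0 ≤ a - δ; linarith, by show a - δ ≤ 1; linarith⟩
  · have e : ∀ t, phi q ![a, a] ![a + δ, a - δ] t =
        psi q ((1 - a) ^ 2) (2 * a * (1 - a)) (a ^ 2) (δ * t) := by
      intro t
      simp only [phi, renyi, psi, FF, sum_range_succ, range_zero, sum_empty, zero_add, pmf0, pmf1,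
        pmf2, Matrix.cons_val_zero, Matrix.cons_val_one]
      congr 5 <;> ring
    refine ⟨convex_Icc _ _, fun s hs t ht hst u v hu hv huv => ?_⟩
    rw [e, e, e]
    have m1 : ∀ s ∈ Icc (0 : ℝ) 1, δ * s ∈ Icc 0 δ := fun s hs =>
      ⟨mul_nonneg hδ.le hs.1, by nlinarith [hs.2]⟩
    have := hconv.2 (m1 s hs) (m1 t ht) (fun h => hst (mul_left_cancel₀ hδ.ne' h)) hu hv huv
    simp only [smul_eq_mul] at this ⊢
    have e2 : δ * (u * s + v * t) = u * (δ * s) + v * (δ * t) := by ring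
    rw [e2]
    exact this

end Pool.Agent.Results.MP_737f38_pr.AboveOne
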